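import Pool.Agent.Lib.MP_c6e9f4_al.TraceNil

set_option autoImplicit false

open Finset Matrix

namespace Pool.Agent.Lib.MP_c6e9f4_al

section

variable {K : Type*} [Field K] [CharZero K] {k : ℕ}

/-- The exterior algebra on `k` generators. -/
abbrev Ext (K : Type*) [Field K] (k : ℕ) : Type _ := ExteriorAlgebra K (Fin k → K)

/-- The generators. -/
noncomputable def gen (K : Type*) [Field K] (k : ℕ) (i : Fin k) : Ext K k :=
  ExteriorAlgebra.ι K (Pi.single i (1 : K))

omit [CharZero K] in
theorem ι_mul_ι (x y : Fin k → K) :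
    ExteriorAlgebra.ι K x * ExteriorAlgebra.ι K y = - (ExteriorAlgebra.ι K y * ExteriorAlgebra.ι K x) := by
  have := ExteriorAlgebra.ι_add_mul_swap (R := K) x y
  exact eq_neg_of_add_eq_zero_left this

omit [CharZero K] in
/-- Products of two vectors are central. -/
theorem ι_mul_ι_mem_center (x y : Fin k → K) :
    ExteriorAlgebra.ι K x * ExteriorAlgebra.ι K y ∈ Subalgebra.center K (Ext K k) := by
  rw [Subalgebra.mem_center_iff]
  intro b
  induction b using ExteriorAlgebra.induction with
  | algebraMap r => exact Algebra.commutes r _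
  | ι z =>
    calc ExteriorAlgebra.ι K z * (ExteriorAlgebra.ι K x * ExteriorAlgebra.ι K y)
        = (ExteriorAlgebra.ι K z * ExteriorAlgebra.ι K x) * ExteriorAlgebra.ι K y := by
          rw [mul_assoc]
      _ = - (ExteriorAlgebra.ι K x * ExteriorAlgebra.ι K z) * ExteriorAlgebra.ι K y := by
          rw [ι_mul_ι z x]
      _ = - (ExteriorAlgebra.ι K x * (ExteriorAlgebra.ι K z * ExteriorAlgebra.ι K y)) := by
          rw [neg_mul, mul_assoc]
      _ = - (ExteriorAlgebra.ι K x * -(ExteriorAlgebra.ι K y * ExteriorAlgebra.ι K z)) := by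
          rw [ι_mul_ι z y]
      _ = ExteriorAlgebra.ι K x * ExteriorAlgebra.ι K y * ExteriorAlgebra.ι K z := by
          rw [mul_neg, neg_neg, mul_assoc]
  | mul a b ha hb => rw [mul_assoc, hb, ← mul_assoc, ha, mul_assoc]
  | add a b ha hb => rw [add_mul, mul_add, ha, hb]

variable {d : ℕ}

/-- The generic matrix `∑ A_i e_i`: its entries are the vectors `(A_i)_{rs}`. -/
noncomputable def genMat (A : Fin k → Matrix (Fin d) (Fin d) K) : Matrix (Fin d) (Fin d) (Ext K k) :=
  Matrix.of fun r s => ExteriorAlgebra.ι K (fun i => A i r s)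

/-- The square of the generic matrix, over the centre. -/
noncomputable def sqMat (A : Fin k → Matrix (Fin d) (Fin d) K) :
    Matrix (Fin d) (Fin d) (Subalgebra.center K (Ext K k)) :=
  Matrix.of fun r s => ⟨(genMat A * genMat A) r s, by
    rw [Matrix.mul_apply]
    exact Subalgebra.sum_mem _ fun t _ => ι_mul_ι_mem_center _ _⟩

omit [CharZero K] in
theorem map_sqMat_pow (A : Fin k → Matrix (Fin d) (Fin d) K) (m : ℕ) :
    (sqMat A ^ m).map (fun x => (x : Ext K k)) = genMat A ^ (2 * m) := by
  have h := (Subalgebra.center K (Ext K k)).val.toRingHom.mapMatrix.map_pow (sqMat A) m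
  have h1 : (Subalgebra.center K (Ext K k)).val.toRingHom.mapMatrix (sqMat A) = genMat A ^ 2 := by
    rw [sq]; rfl
  rw [h1, ← pow_mul] at h
  exact h

theorem trace_sqMat_pow (A : Fin k → Matrix (Fin d) (Fin d) K) {m : ℕ} (hm : 1 ≤ m) :
    (sqMat A ^ m).trace = 0 := by
  obtain ⟨m, rfl⟩ : ∃ l, m = l + 1 := ⟨m - 1, by omega⟩
  apply Subtype.ext
  have h1 : (((sqMat A ^ (m + 1)).trace : Subalgebra.center K (Ext K k)) : Ext K k) =
      (genMat A ^ (2 * (m + 1))).trace := by
    rw [← map_sqMat_pow, Matrix.trace, Matrix.trace]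
    exact map_sum (Subalgebra.center K (Ext K k)).val _ _
  rw [h1]
  -- `A^(2m+2) = A^(2m+1) * A = A * A^(2m+1)`
  set G := genMat A with hG
  set Z := sqMat A ^ m with hZ
  have hZG : G ^ (2 * m) = Z.map (fun x => (x : Ext K k)) := (map_sqMat_pow A m).symm
  have e1 : (G ^ (2 * (m + 1))).trace = ∑ r, ∑ s, G r s * (G ^ (2 * m + 1)) s r := by
    rw [show 2 * (m + 1) = (2 * m + 1) + 1 by ring, pow_succ' G (2 * m + 1), Matrix.trace]
    rfl
  have e2 : (G ^ (2 * (m + 1))).trace = ∑ s, ∑ r, (G ^ (2 * m + 1)) s r * G r s := by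
    rw [show 2 * (m + 1) = (2 * m + 1) + 1 by ring, pow_succ G (2 * m + 1), Matrix.trace]
    rfl
  have e3 : ∀ r s, G r s * (G ^ (2 * m + 1)) s r = - ((G ^ (2 * m + 1)) s r * G r s) := by
    intro r s
    rw [pow_succ, hZG, Matrix.mul_apply, Finset.mul_sum, Finset.sum_mul, ← Finset.sum_neg_distrib]
    refine Finset.sum_congr rfl fun t _ => ?_
    have hc : ∀ b : Ext K k, b * (Z s t : Ext K k) = (Z s t : Ext K k) * b :=
      (Subalgebra.mem_center_iff.1 (Z s t).2)
    have hodd : G r s * G t r = - (G t r * G r s) := ι_mul_ι _ _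
    rw [Matrix.map_apply, ← mul_assoc, hc, mul_assoc, hodd, mul_neg, mul_assoc]
  have e4 : (G ^ (2 * (m + 1))).trace = - (G ^ (2 * (m + 1))).trace := by
    conv_lhs => rw [e1]
    rw [e2, Finset.sum_comm, ← Finset.sum_neg_distrib]
    refine Finset.sum_congr rfl fun s _ => ?_
    rw [← Finset.sum_neg_distrib]
    exact Finset.sum_congr rfl fun r _ => e3 r s
  have h2 : (2 : K) • (G ^ (2 * (m + 1))).trace = 0 := by
    rw [two_smul]
    nth_rewrite 1 [e4]
    exact neg_add_cancel _
  have h3 : (2 : K) ≠ 0 := two_ne_zero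
  have h4 := congrArg (fun x => (2 : K)⁻¹ • x) h2
  simpa [smul_smul, inv_mul_cancel₀ h3] using h4

theorem genMat_pow_eq_zero (A : Fin k → Matrix (Fin d) (Fin d) K) (hk : 2 * d ≤ k) :
    genMat A ^ k = 0 := by
  have h1 : sqMat A ^ d = 0 := by
    let _ : Algebra ℚ (Subalgebra.center K (Ext K k)) :=
      (((algebraMap K (Subalgebra.center K (Ext K k))).comp (algebraMap ℚ K))).toAlgebra
    have := pow_card_eq_zero_of_trace (sqMat A) (fun m hm _ => trace_sqMat_pow A hm)
    simpa using this
  have h2 : genMat A ^ (2 * d) = 0 := by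
    rw [← map_sqMat_pow, h1]
    refine Matrix.ext fun i j => ?_
    simp
  obtain ⟨l, rfl⟩ : ∃ l, k = 2 * d + l := ⟨k - 2 * d, by omega⟩
  rw [pow_add, h2, zero_mul]

/-- The determinant functional on the exterior algebra. -/
noncomputable def detFun (K : Type*) [Field K] (k : ℕ) : Ext K k →ₗ[K] K :=
  ExteriorAlgebra.liftAlternating (R := K) (M := Fin k → K) (N := K)
    (fun i => if h : i = k then h ▸ Matrix.detRowAlternating else 0)

omit [CharZero K] in
theorem detFun_prod (v : Fin k → Fin k → K) :
    detFun K k (List.ofFn fun j => ExteriorAlgebra.ι K (v j)).prod = Matrix.det (Matrix.of v) := by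
  have h := ExteriorAlgebra.liftAlternating_apply_ιMulti (R := K) (M := Fin k → K) (N := K)
    (fun i => if h : i = k then h ▸ Matrix.detRowAlternating else 0) v
  rw [ExteriorAlgebra.ιMulti_apply] at h
  rw [detFun, h]
  simp
  rfl

omit [CharZero K] in
theorem genMat_eq_sum (A : Fin k → Matrix (Fin d) (Fin d) K) :
    genMat A = ∑ i, (A i).map (fun x => x • gen K k i) := by
  refine Matrix.ext fun r s => ?_
  rw [Matrix.sum_apply]
  simp only [genMat, Matrix.of_apply, Matrix.map_apply, gen]
  conv_lhs => rw [pi_eq_sum_univ' (fun i => A i r s)]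
  rw [map_sum]
  refine Finset.sum_congr rfl fun i _ => ?_
  rw [map_smul]

omit [CharZero K] in
theorem map_mul_map (B C : Matrix (Fin d) (Fin d) K) (g h : Ext K k) :
    B.map (fun x => x • g) * C.map (fun x => x • h) = (B * C).map (fun x => x • (g * h)) := by
  refine Matrix.ext fun r s => ?_
  simp only [Matrix.mul_apply, Matrix.map_apply, Finset.sum_smul, smul_mul_smul_comm]

omit [CharZero K] in
theorem prod_map : ∀ (m : ℕ) (B : Fin m → Matrix (Fin d) (Fin d) K) (g : Fin m → Ext K k),
    (List.ofFn fun j => (B j).map (fun x => x • g j)).prod =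
      ((List.ofFn B).prod).map (fun x => x • (List.ofFn g).prod)
  | 0, B, g => by
    refine Matrix.ext fun r s => ?_
    by_cases h : r = s
    · subst h; simp
    · simp [h]
  | m + 1, B, g => by
    rw [List.ofFn_succ, List.prod_cons, prod_map m, map_mul_map, List.ofFn_succ (f := B),
      List.prod_cons, List.ofFn_succ (f := g), List.prod_cons]

/-- The Amitsur-Levitzki theorem: the standard polynomial of degree `k ≥ 2 d` vanishes on
`d × d` matrices over a field of characteristic zero. -/
theorem amitsur_levitzki (A : Fin k → Matrix (Fin d) (Fin d) K) (hk : 2 * d ≤ k) :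
    ∑ σ : Equiv.Perm (Fin k), (Equiv.Perm.sign σ : ℤ) • (List.ofFn fun j => A (σ j)).prod = 0 := by
  have h0 := genMat_pow_eq_zero A hk
  have h1 : genMat A ^ k = ∑ f : Fin k → Fin k,
      ((List.ofFn fun j => A (f j)).prod).map
        (fun x => x • (List.ofFn fun j => gen K k (f j)).prod) := by
    have h2 := (MultilinearMap.mkPiAlgebraFin K k (Matrix (Fin d) (Fin d) (Ext K k))).map_sum
      (fun (_ : Fin k) (i : Fin k) => (A i).map (fun x => x • gen K k i))
    simp only [MultilinearMap.mkPiAlgebraFin_apply] at h2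
    rw [← genMat_eq_sum] at h2
    rw [List.ofFn_const, List.prod_replicate] at h2
    rw [h2]
    refine Finset.sum_congr rfl fun f _ => ?_
    exact prod_map k (fun j => A (f j)) (fun j => gen K k (f j))
  refine Matrix.ext fun r s => ?_
  have h3 : (0 : K) = ∑ f : Fin k → Fin k, (List.ofFn fun j => A (f j)).prod r s *
      Matrix.det (Matrix.of fun j => (Pi.single (f j) (1 : K) : Fin k → K)) := by
    have h4 := congrArg (fun N : Matrix (Fin d) (Fin d) (Ext K k) => detFun K k (N r s))
      (h0.symm.trans h1)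
    simp only [Matrix.zero_apply, map_zero, Matrix.sum_apply, map_sum, Matrix.map_apply,
      map_smul, smul_eq_mul] at h4
    rw [h4]
    refine Finset.sum_congr rfl fun f _ => ?_
    congr 1
    exact detFun_prod (fun j => (Pi.single (f j) (1 : K) : Fin k → K))
  rw [Matrix.sum_apply, Matrix.zero_apply, h3]
  refine Finset.sum_of_injOn (fun σ : Equiv.Perm (Fin k) => (σ : Fin k → Fin k)) ?_ ?_ ?_ ?_
  · intro σ _ τ _ h
    exact Equiv.coe_fn_injective h
  · intro σ _
    exact Finset.mem_coe.2 (Finset.mem_univ _)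
  · intro f _ hf
    have hninj : ¬ Function.Injective f := by
      intro hinj
      apply hf
      refine ⟨Equiv.ofBijective f (Finite.injective_iff_bijective.1 hinj), by simp, rfl⟩
    have : Matrix.det (Matrix.of fun j => (Pi.single (f j) (1 : K) : Fin k → K)) = 0 := by
      have hdet := (Matrix.detRowAlternating (n := Fin k) (R := K)).map_eq_zero_of_not_injective
        (fun j => (Pi.single (f j) (1 : K) : Fin k → K)) ?_
      · exact hdet
      · intro hinj
        exact hninj fun a b hab => hinj (by simp only [hab])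
    rw [this, mul_zero]
  · intro σ _
    have hdet : Matrix.det (Matrix.of fun j => (Pi.single (σ j) (1 : K) : Fin k → K)) =
        ((Equiv.Perm.sign σ : ℤ) : K) := by
      have h5 := (Matrix.detRowAlternating (n := Fin k) (R := K)).map_perm
        (fun j => (Pi.single j (1 : K) : Fin k → K)) σ
      have h6 : Matrix.detRowAlternating (fun j => (Pi.single j (1 : K) : Fin k → K)) = 1 := by
        have : (Matrix.of fun j => (Pi.single j (1 : K) : Fin k → K)) = (1 : Matrix (Fin k) (Fin k) K) := by
          refine Matrix.ext fun a b => ?_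
          rw [Matrix.of_apply, Matrix.one_apply, Pi.single_apply]
          simp [eq_comm]
        exact (congrArg Matrix.det this).trans Matrix.det_one
      rw [h6] at h5
      have h7 : Matrix.det (Matrix.of fun j => (Pi.single (σ j) (1 : K) : Fin k → K)) =
        Equiv.Perm.sign σ • (1 : K) := h5
      rw [h7, Units.smul_def, zsmul_eq_mul, mul_one]
    rw [hdet, Matrix.smul_apply, zsmul_eq_mul, mul_comm]

end

end Pool.Agent.Lib.MP_c6e9f4_al
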