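import Pool.Agent.Lib.MP_c6e9f4_al.Wreath

/-!
# Lower bound for the index of permutability: asymptotics

`m ≈ 1.005 (n / log n)^(1/3)` registers and all primes up to `y ≈ 0.4872 n^(1/3) (log n)^(2/3)`.
-/

set_option autoImplicit false

open Finset Filter Topology

namespace Pool.Agent.Lib.MP_c6e9f4_al

/-- Using all primes up to `y` as moduli. -/
theorem not_isPermutable_wr_primorial {n k m y : ℕ} (hk : 0 < k) (hm : 0 < m) (hkm : k ≤ m.factorial)
    (hn : m * (y * Nat.primeCounting y) ≤ n) (hN : k * m ^ 3 ≤ primorial y) :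
    ¬ IsPermutable (Equiv.Perm (Fin n)) k := by
  classical
  refine not_isPermutable_wr (ι := {p // p ∈ Nat.primesLE y}) (fun p => (p : ℕ)) ?_ ?_ hk hm hkm ?_ ?_
  · intro p
    exact (Nat.prime_of_mem_primesLE p.2).pos
  · intro p q hpq
    refine (Nat.coprime_primes (Nat.prime_of_mem_primesLE p.2) (Nat.prime_of_mem_primesLE q.2)).2 ?_
    exact fun h => hpq (Subtype.ext h)
  · refine le_trans (Nat.mul_le_mul_left m ?_) hn
    have h1 : ∑ i : {p // p ∈ Nat.primesLE y}, (i : ℕ) ≤
        ∑ _i : {p // p ∈ Nat.primesLE y}, y := by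
      refine Finset.sum_le_sum fun i _ => ?_
      exact Nat.le_of_mem_primesLE i.2
    refine h1.trans (le_of_eq ?_)
    rw [Finset.sum_const, smul_eq_mul, Finset.card_univ, Fintype.card_coe, mul_comm]
    congr 1
    simp
  · refine hN.trans (le_of_eq ?_)
    rw [primorial_eq_prod_primesLE]
    exact (Finset.prod_coe_sort (Nat.primesLE y) (fun p => p)).symm

theorem tendsto_div_log : Tendsto (fun t : ℝ => t / Real.log t) atTop atTop := by
  have h := (isLittleO_log_rpow_atTop (r := 1 / 2) (by norm_num)).bound (c := 1) one_pos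
  refine tendsto_atTop_mono' atTop ?_ (tendsto_rpow_atTop (by norm_num : (0 : ℝ) < 1 / 2))
  filter_upwards [h, eventually_gt_atTop 1] with t ht h1
  have ht0 : (0 : ℝ) < t := by linarith
  rw [Real.norm_of_nonneg (Real.log_nonneg h1.le), Real.norm_of_nonneg (by positivity), one_mul] at ht
  rw [le_div_iff₀ (Real.log_pos h1)]
  calc t ^ ((1 : ℝ) / 2) * Real.log t ≤ t ^ ((1 : ℝ) / 2) * t ^ ((1 : ℝ) / 2) :=
        mul_le_mul_of_nonneg_left ht (by positivity)
    _ = t := by
        rw [← Real.rpow_add ht0]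
        norm_num

/-- `(n / log n)^(1/3)` -/
noncomputable def AA (n : ℕ) : ℝ := ((n : ℝ) / Real.log n) ^ ((1 : ℝ) / 3)

theorem tendsto_AA : Tendsto AA atTop atTop := by
  unfold AA
  exact (tendsto_rpow_atTop (by norm_num : (0 : ℝ) < 1 / 3)).comp
    (tendsto_div_log.comp tendsto_natCast_atTop_atTop)

theorem eventually_theta_ge2 : ∀ᶠ x : ℝ in atTop, 0.69 * x ≤ Chebyshev.theta x := by
  have hlog2 : 0.6931 < Real.log 2 := by have := Real.log_two_gt_d9; linarith
  have h1 : ∀ᶠ x : ℝ in atTop, Real.log x ≤ 0.0005 * x ^ ((1 : ℝ) / 2) := by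
    have := (isLittleO_log_rpow_atTop (r := 1 / 2) (by norm_num)).bound (c := 0.0005) (by norm_num)
    filter_upwards [this, eventually_ge_atTop 1] with x hx hx1
    rw [Real.norm_of_nonneg (Real.log_nonneg hx1), Real.norm_of_nonneg (by positivity)] at hx
    exact hx
  filter_upwards [h1, eventually_ge_atTop 10000] with x hx hx1
  have hx0 : (0 : ℝ) ≤ x := by linarith
  have hge := Chebyshev.theta_ge' (x := x) (by linarith)
  have hs : √x = x ^ ((1 : ℝ) / 2) := Real.sqrt_eq_rpow x
  have h2 : 2 * √x * Real.log x ≤ 0.001 * x := by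
    have : √x * √x = x := Real.mul_self_sqrt hx0
    rw [← hs] at hx
    nlinarith [Real.sqrt_nonneg x]
  have h3 : Real.log (x + 2) ≤ 0.001 * x := by
    have h4 : Real.log (x + 2) ≤ Real.log (x ^ 2) := by
      apply Real.log_le_log (by linarith)
      nlinarith
    rw [Real.log_pow] at h4
    have h5 : √x ≤ x := by
      rw [Real.sqrt_le_left hx0]
      nlinarith
    rw [← hs] at hx
    push_cast at h4
    nlinarith
  nlinarith

theorem log_factorial_ge (m : ℕ) (hm : 0 < m) :
    (m : ℝ) * Real.log m - m ≤ Real.log (m.factorial : ℝ) := by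
  have hm0 : (0 : ℝ) < m := by exact_mod_cast hm
  have hf : (0 : ℝ) < (m.factorial : ℝ) := by exact_mod_cast m.factorial_pos
  have h := Real.pow_div_factorial_le_exp (m : ℝ) hm0.le m
  rw [div_le_iff₀ hf] at h
  have h2 := Real.log_le_log (by positivity) h
  rw [Real.log_pow, Real.log_mul (Real.exp_pos _).ne' hf.ne', Real.log_exp] at h2
  linarith

theorem log_factorial_le (m : ℕ) :
    Real.log (m.factorial : ℝ) ≤ (m : ℝ) * Real.log m := by
  have hf : (0 : ℝ) < (m.factorial : ℝ) := by exact_mod_cast m.factorial_pos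
  have h : (m.factorial : ℝ) ≤ (m : ℝ) ^ m := by exact_mod_cast m.factorial_le_pow
  have h2 := Real.log_le_log hf h
  rwa [Real.log_pow] at h2

/-- The index of permutability of `S_n` is at least `exp ((1/3) n^(1/3) (log n)^(2/3))` for all
large `n`. -/
theorem exp_le_permIndex2 : ∀ᶠ n : ℕ in atTop,
    Real.exp (1 / 3 * ((n : ℝ) ^ ((1 : ℝ) / 3) * (Real.log n) ^ ((2 : ℝ) / 3))) ≤
      permIndex (Equiv.Perm (Fin n)) := by
  have hlog : Tendsto (fun n : ℕ => Real.log n) atTop atTop :=
    Real.tendsto_log_atTop.comp tendsto_natCast_atTop_atTop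
  have hx : Tendsto (fun n : ℕ => 0.4872 * (Real.log n * AA n)) atTop atTop :=
    (hlog.atTop_mul_atTop₀ tendsto_AA).const_mul_atTop (by norm_num)
  have hll : ∀ᶠ l : ℝ in atTop, Real.log l + 3 ≤ 0.001 * l := by
    have := Real.isLittleO_log_id_atTop.bound (c := 0.0005) (by norm_num)
    filter_upwards [this, eventually_ge_atTop 6000] with l hl hl1
    rw [Real.norm_of_nonneg (Real.log_nonneg (by linarith)), Real.norm_of_nonneg
      (by simp only [id_eq]; linarith)] at hl
    simp only [id_eq] at hl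
    linarith
  filter_upwards [hx.eventually (Chebyshev.eventually_primeCounting_le (ε := 0.0005) (by norm_num)),
    hx.eventually eventually_theta_ge2, hx.eventually (eventually_ge_atTop 2),
    hlog.eventually (eventually_ge_atTop 8), hlog.eventually hll,
    tendsto_AA.eventually (eventually_ge_atTop 1000), eventually_gt_atTop 1] with n h1 h2 h3 h4 h5 h6 h7
  have hn1 : (1 : ℝ) < n := by exact_mod_cast h7
  have hn0 : (0 : ℝ) < n := by linarith
  set l := Real.log n with hl
  set A := AA n with hA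
  set x := 0.4872 * (l * A) with hxdef
  have hl0 : 0 < l := by linarith
  have hA0 : 0 < A := by linarith
  have hA3 : A ^ 3 = n / l := by
    rw [hA, AA, ← Real.rpow_natCast, ← Real.rpow_mul (by positivity), ← hl]
    norm_num
  have hlA3 : l * A ^ 3 = n := by
    rw [hA3]
    field_simp
  -- the exponent
  have hexp : (n : ℝ) ^ ((1 : ℝ) / 3) * l ^ ((2 : ℝ) / 3) = l * A := by
    rw [hA, AA, Real.div_rpow hn0.le hl0.le]
    have e : l = l ^ ((2 : ℝ) / 3) * l ^ ((1 : ℝ) / 3) := by
      rw [← Real.rpow_add hl0]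
      norm_num
    have hp : (0 : ℝ) < l ^ ((1 : ℝ) / 3) := Real.rpow_pos_of_pos hl0 _
    calc (n : ℝ) ^ ((1 : ℝ) / 3) * l ^ ((2 : ℝ) / 3)
        = (l ^ ((2 : ℝ) / 3) * l ^ ((1 : ℝ) / 3)) * ((n : ℝ) ^ ((1 : ℝ) / 3) / l ^ ((1 : ℝ) / 3)) := by
          field_simp
      _ = l * ((n : ℝ) ^ ((1 : ℝ) / 3) / l ^ ((1 : ℝ) / 3)) := by rw [← e]
  rw [hexp]
  -- the number of registers
  set m := ⌊1.005 * A⌋₊ with hm
  have hmle : (m : ℝ) ≤ 1.005 * A := Nat.floor_le (by positivity)
  have hmge : 1.005 * A - 1 < m := by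
    have h8 := Nat.lt_floor_add_one (1.005 * A)
    rw [← hm] at h8
    linarith
  have hmA : A ≤ m := by linarith
  have hm0' : (0 : ℝ) < m := by linarith
  have hm0 : 0 < m := by exact_mod_cast hm0'
  -- logarithms
  have hlogx : l ≤ 3 * Real.log x := by
    rw [show (3 : ℝ) * Real.log x = Real.log (x ^ 3) by rw [Real.log_pow]; norm_num, hl]
    apply Real.log_le_log hn0
    have : x ^ 3 = 0.4872 ^ 3 * (l ^ 2 * n) := by
      rw [← hlA3, hxdef]; ring
    rw [this]
    have h9 : (64 : ℝ) ≤ l ^ 2 := by nlinarith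
    nlinarith
  have hlogxpos : 0 < Real.log x := by linarith
  have hlogm : Real.log m ≤ l / 3 := by
    have h8 : 3 * Real.log m = Real.log ((m : ℝ) ^ 3) := by rw [Real.log_pow]; norm_num
    have h9 : Real.log ((m : ℝ) ^ 3) ≤ l := by
      rw [hl]
      apply Real.log_le_log (by positivity)
      calc (m : ℝ) ^ 3 ≤ (1.005 * A) ^ 3 := pow_le_pow_left₀ hm0'.le hmle 3
        _ = 1.005 ^ 3 * A ^ 3 := by ring
        _ ≤ l * A ^ 3 := by
          apply mul_le_mul_of_nonneg_right _ (by positivity)
          norm_num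
          linarith
        _ = n := hlA3
    linarith
  have hlogm0 : 0 ≤ Real.log m := Real.log_nonneg (by linarith)
  have hlogA : Real.log A = (l - Real.log l) / 3 := by
    have h8 : 3 * Real.log A = Real.log (A ^ 3) := by rw [Real.log_pow]; norm_num
    rw [hA3, Real.log_div hn0.ne' hl0.ne'] at h8
    linarith
  have hlogm2 : 0.999 * (l / 3) ≤ Real.log m - 1 := by
    have h8 : Real.log A ≤ Real.log m := Real.log_le_log hA0 hmA
    rw [hlogA] at h8
    linarith
  have hlog4 : Real.log 4 < 1.3864 := by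
    have : Real.log 4 = 2 * Real.log 2 := by
      rw [show (4 : ℝ) = 2 ^ 2 by norm_num, Real.log_pow]; norm_num
    have h := Real.log_two_lt_d9
    linarith
  have hnot : ¬ IsPermutable (Equiv.Perm (Fin n)) m.factorial := by
    refine not_isPermutable_wr_primorial (y := ⌊x⌋₊) m.factorial_pos hm0 le_rfl ?_ ?_
    · have hfl : (⌊x⌋₊ : ℝ) ≤ x := Nat.floor_le (by linarith)
      have hreal : (m : ℝ) * ((⌊x⌋₊ : ℝ) * (Nat.primeCounting ⌊x⌋₊ : ℝ)) ≤ n := by
        calc (m : ℝ) * ((⌊x⌋₊ : ℝ) * (Nat.primeCounting ⌊x⌋₊ : ℝ))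
            ≤ (1.005 * A) * (x * ((Real.log 4 + 0.0005) * x / Real.log x)) := by
              apply mul_le_mul hmle _ (by positivity) (by positivity)
              exact mul_le_mul hfl h1 (by positivity) (by linarith)
          _ = (1.005 * 0.4872 ^ 2 * (Real.log 4 + 0.0005)) * (l * (l * A ^ 3)) / Real.log x := by
              rw [hxdef]; ring
          _ = (1.005 * 0.4872 ^ 2 * (Real.log 4 + 0.0005)) * (l * n) / Real.log x := by rw [hlA3]
          _ ≤ n := by
              rw [div_le_iff₀ hlogxpos]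
              have h8 : (1.005 * 0.4872 ^ 2 * (Real.log 4 + 0.0005)) ≤ 1 / 3 := by
                norm_num
                linarith
              have h9 : (1.005 * 0.4872 ^ 2 * (Real.log 4 + 0.0005)) * (l * n) ≤ 1 / 3 * (l * n) :=
                mul_le_mul_of_nonneg_right h8 (by positivity)
              have h10 : 1 / 3 * (l * n) ≤ n * Real.log x := by
                have : l * n ≤ 3 * Real.log x * n := mul_le_mul_of_nonneg_right hlogx hn0.le
                linarith
              linarith
      exact_mod_cast hreal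
    · have hmf : (0 : ℝ) < (m.factorial : ℝ) := by exact_mod_cast m.factorial_pos
      have hreal : (m.factorial : ℝ) * (m : ℝ) ^ 3 ≤ primorial ⌊x⌋₊ := by
        have h8 : Real.log ((m.factorial : ℝ) * (m : ℝ) ^ 3) ≤ 0.69 * x := by
          rw [Real.log_mul hmf.ne' (by positivity), Real.log_pow]
          have h9 := log_factorial_le m
          have h10 : (m : ℝ) * Real.log m ≤ (1.005 * A) * (l / 3) :=
            mul_le_mul hmle hlogm hlogm0 (by positivity)
          push_cast
          have h11 : l ≤ l * A * 0.001 := by nlinarith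
          rw [hxdef]
          nlinarith
        calc (m.factorial : ℝ) * (m : ℝ) ^ 3 = Real.exp (Real.log ((m.factorial : ℝ) * (m : ℝ) ^ 3)) := by
              rw [Real.exp_log (by positivity)]
          _ ≤ Real.exp (Chebyshev.theta x) := Real.exp_le_exp.2 (h8.trans h2)
          _ = primorial ⌊x⌋₊ := by
              rw [Chebyshev.theta_eq_log_primorial, Real.exp_log]
              exact_mod_cast primorial_pos _
      exact_mod_cast hreal
  have hlt := lt_permIndex hnot
  have hfac : Real.exp (1 / 3 * (l * A)) ≤ (m.factorial : ℝ) := by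
    have hmf : (0 : ℝ) < (m.factorial : ℝ) := by exact_mod_cast m.factorial_pos
    rw [← Real.le_log_iff_exp_le hmf]
    have h8 := log_factorial_ge m hm0
    have h9 : (1.005 * A - 1) * (0.999 * (l / 3)) ≤ (m : ℝ) * (Real.log m - 1) :=
      mul_le_mul hmge.le hlogm2 (by positivity) hm0'.le
    have h10 : (1.004 * A) * (0.999 * (l / 3)) ≤ (1.005 * A - 1) * (0.999 * (l / 3)) := by
      apply mul_le_mul_of_nonneg_right _ (by positivity)
      linarith
    have h11 : 0 < l * A := by positivity
    nlinarith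
  calc Real.exp (1 / 3 * (l * A)) ≤ (m.factorial : ℝ) := hfac
    _ ≤ permIndex (Equiv.Perm (Fin n)) := by exact_mod_cast hlt.le

end Pool.Agent.Lib.MP_c6e9f4_al
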