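import Mathlib

set_option autoImplicit false

namespace Pool.Agent.Lib.MP_c6e9f4_al

/-- `G` is `k`-permutable: every `k`-tuple of elements of `G` (repetitions allowed) admits a
reordering by a non-identity permutation with the same product. -/
def IsPermutable (G : Type*) [Group G] (k : ℕ) : Prop :=
  ∀ x : Fin k → G, ∃ σ : Equiv.Perm (Fin k), σ ≠ 1 ∧
    (List.ofFn x).prod = (List.ofFn fun i => x (σ i)).prod

/-- The index of permutability of `G`: the least `k ≥ 2` such that `G` is `k`-permutable. -/
noncomputable def permIndex (G : Type*) [Group G] : ℕ :=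
  sInf {k | 2 ≤ k ∧ IsPermutable G k}

theorem IsPermutable.succ {G : Type*} [Group G] {k : ℕ} (h : IsPermutable G k) :
    IsPermutable G (k + 1) := by
  intro x
  obtain ⟨σ, hσ, hp⟩ := h (fun i => x i.succ)
  refine ⟨Equiv.Perm.decomposeFin.symm (0, σ), ?_, ?_⟩
  · intro h1
    apply hσ
    refine Equiv.ext fun i => ?_
    have := congrArg (fun e : Equiv.Perm (Fin (k + 1)) => e i.succ) h1
    simpa [Equiv.Perm.decomposeFin_symm_apply_succ] using this
  · rw [List.ofFn_succ, List.prod_cons, hp, List.ofFn_succ (f := fun i => x _), List.prod_cons]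
    simp [Equiv.Perm.decomposeFin_symm_apply_succ]

theorem IsPermutable.mono {G : Type*} [Group G] {k l : ℕ} (h : IsPermutable G k) (hkl : k ≤ l) :
    IsPermutable G l := by
  induction hkl with
  | refl => exact h
  | step _ ih => exact ih.succ

/-- A finite group is `k`-permutable for `k > |G|`, since two of the entries coincide. -/
theorem isPermutable_of_card_lt {G : Type*} [Group G] [Finite G] {k : ℕ} (hk : Nat.card G < k) :
    IsPermutable G k := by
  intro x
  have := Fintype.ofFinite G
  obtain ⟨i, j, hij, hx⟩ := Fintype.exists_ne_map_eq_of_card_lt x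
    (by rwa [Fintype.card_fin, ← Nat.card_eq_fintype_card])
  refine ⟨Equiv.swap i j, ?_, ?_⟩
  · intro h
    exact hij (Equiv.swap_eq_one_iff.mp h)
  · congr 2
    funext t
    by_cases h1 : t = i
    · subst h1; simp [hx]
    · by_cases h2 : t = j
      · subst h2; simp [hx]
      · rw [Equiv.swap_apply_of_ne_of_ne h1 h2]

theorem permIndex_mem (G : Type*) [Group G] [Finite G] :
    2 ≤ permIndex G ∧ IsPermutable G (permIndex G) := by
  have h : (Nat.card G + 1) ∈ {k | 2 ≤ k ∧ IsPermutable G k} := by
    refine ⟨?_, isPermutable_of_card_lt (Nat.lt_succ_self _)⟩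
    have := Nat.card_pos (α := G)
    omega
  exact Nat.sInf_mem ⟨_, h⟩

theorem permIndex_le {G : Type*} [Group G] {k : ℕ} (h2 : 2 ≤ k) (h : IsPermutable G k) :
    permIndex G ≤ k :=
  Nat.sInf_le ⟨h2, h⟩

theorem lt_permIndex {G : Type*} [Group G] [Finite G] {k : ℕ} (h : ¬ IsPermutable G k) :
    k < permIndex G := by
  by_contra hk
  exact h ((permIndex_mem G).2.mono (not_lt.mp hk))

theorem IsPermutable.of_injective {G H : Type*} [Group G] [Group H] {k : ℕ}
    (h : IsPermutable G k) (f : H →* G) (hf : Function.Injective f) : IsPermutable H k := by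
  intro x
  obtain ⟨σ, hσ, hp⟩ := h (fun i => f (x i))
  refine ⟨σ, hσ, hf ?_⟩
  rw [map_list_prod, map_list_prod, List.map_ofFn, List.map_ofFn]
  exact hp

end Pool.Agent.Lib.MP_c6e9f4_al
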