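import Pool.Agent.Lib.MP_c6e9f4_al.Basic

set_option autoImplicit false

open Finset

namespace Pool.Agent.Lib.MP_c6e9f4_al

/-- The affine shear `(u, v) ↦ (u + 1, v + a u)` of `(ℤ/m)²`. -/
def heis (m a : ℕ) : Equiv.Perm (ZMod m × ZMod m) where
  toFun w := (w.1 + 1, w.2 + a * w.1)
  invFun w := (w.1 - 1, w.2 - a * (w.1 - 1))
  left_inv w := by ext <;> simp
  right_inv w := by ext <;> simp

theorem prod_heis (m : ℕ) : ∀ (k : ℕ) (a : Fin k → ℕ),
    (List.ofFn fun j => heis m (a j)).prod (0, 0) =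
      ((k : ZMod m), ((∑ j : Fin k, a j * (k - 1 - j) : ℕ) : ZMod m))
  | 0, a => by simp
  | k + 1, a => by
    rw [List.ofFn_succ, List.prod_cons, Equiv.Perm.mul_apply, prod_heis m k (fun j => a j.succ)]
    rw [Fin.sum_univ_succ]
    have hs : ∀ j : Fin k, a j.succ * (k + 1 - 1 - (j.succ : Fin (k + 1)).val) =
        a j.succ * (k - 1 - (j : ℕ)) := by
      intro j
      congr 1
      simp only [Fin.val_succ]
      omega
    rw [Finset.sum_congr rfl (fun j _ => hs j)]
    simp only [heis, Equiv.coe_fn_mk]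
    ext
    · simp
    · simp [add_comm]

/-- The weight `∑ σ(j) (k - 1 - j)` recorded by the shears. -/
def wt (k : ℕ) (σ : Equiv.Perm (Fin k)) : ℕ := ∑ j : Fin k, (σ j : ℕ) * (k - 1 - j)

theorem wt_one_lt {k : ℕ} {σ : Equiv.Perm (Fin k)} (hσ : σ ≠ 1) : wt k 1 < wt k σ := by
  have hanti : Antivary (fun j : Fin k => ((j : ℕ) : ℤ)) (fun j : Fin k => ((k - 1 - j : ℕ) : ℤ)) := by
    intro i j hij
    simp only at hij ⊢
    have h1 : k - 1 - (i : ℕ) < k - 1 - (j : ℕ) := by exact_mod_cast hij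
    have : (j : ℕ) ≤ i := by omega
    exact_mod_cast this
  have h := (hanti.sum_mul_lt_sum_comp_perm_mul_iff (σ := σ)).2 ?_
  · unfold wt
    have h' : (∑ j : Fin k, (((1 : Equiv.Perm (Fin k)) j : ℕ) : ℤ) * ((k - 1 - j : ℕ) : ℤ)) <
        ∑ j : Fin k, ((σ j : ℕ) : ℤ) * ((k - 1 - j : ℕ) : ℤ) := by
      simpa using h
    exact_mod_cast h'
  · intro hA
    apply hσ
    have hmono : StrictMono σ := by
      intro i j hij
      by_contra hcon
      have hlt : σ j < σ i := by
        rcases lt_trichotomy (σ i) (σ j) with h1 | h1 | h1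
        · exact absurd h1 hcon
        · exact absurd (σ.injective h1) hij.ne
        · exact h1
      have := @hA j i (by
        have hi := i.isLt
        have hj := j.isLt
        simp only
        have : k - 1 - (j : ℕ) < k - 1 - (i : ℕ) := by
          have : (i : ℕ) < j := hij
          omega
        exact_mod_cast this)
      simp only [Function.comp_apply] at this
      have : (σ i : ℕ) ≤ σ j := by exact_mod_cast this
      exact absurd hlt (not_lt.mpr this)
    have := hmono.orderIsoOfSurjective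
    refine Equiv.ext fun i => ?_
    have h2 : (hmono.orderIsoOfSurjective σ σ.surjective) = OrderIso.refl _ := Subsingleton.elim _ _
    have h3 := congrArg (fun e : Fin k ≃o Fin k => e i) h2
    simpa using h3

theorem wt_lt {k : ℕ} (hk : 0 < k) (σ : Equiv.Perm (Fin k)) : wt k σ < k ^ 3 := by
  unfold wt
  calc ∑ j : Fin k, (σ j : ℕ) * (k - 1 - j) ≤ ∑ _j : Fin k, (k - 1) * (k - 1) := by
        apply Finset.sum_le_sum
        intro j _
        exact Nat.mul_le_mul (by have := (σ j).isLt; omega) (by omega)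
    _ = k * ((k - 1) * (k - 1)) := by simp
    _ < k ^ 3 := by
        obtain ⟨k, rfl⟩ : ∃ l, k = l + 1 := ⟨k - 1, by omega⟩
        simp only [Nat.add_sub_cancel]
        nlinarith [Nat.zero_le k, Nat.zero_le (k * k)]

/-- Key quantitative statement: if `m i` are pairwise coprime moduli with
`∑ (m i)² ≤ n` and `k³ ≤ ∏ m i`, then the symmetric group of degree `n` is not `k`-permutable. -/
theorem not_isPermutable_perm {ι : Type*} [Fintype ι] [DecidableEq ι] (m : ι → ℕ)
    (hpos : ∀ i, 0 < m i) (hco : Pairwise (Function.onFun Nat.Coprime m)) {n k : ℕ} (hk : 0 < k)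
    (hn : ∑ i, m i ^ 2 ≤ n) (hN : k ^ 3 ≤ ∏ i, m i) :
    ¬ IsPermutable (Equiv.Perm (Fin n)) k := by
  intro hP
  have : ∀ i, NeZero (m i) := fun i => ⟨(hpos i).ne'⟩
  -- the product group embeds into `Perm (Fin n)`
  have hcard : Fintype.card (Σ i, ZMod (m i) × ZMod (m i)) ≤ Fintype.card (Fin n) := by
    rw [Fintype.card_sigma, Fintype.card_fin]
    refine le_trans (le_of_eq ?_) hn
    refine Finset.sum_congr rfl fun i _ => ?_
    rw [Fintype.card_prod, ZMod.card, sq]
  obtain ⟨e⟩ := Function.Embedding.nonempty_of_card_le hcard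
  have h1 : IsPermutable (Equiv.Perm (Σ i, ZMod (m i) × ZMod (m i))) k :=
    hP.of_injective (Equiv.Perm.viaEmbeddingHom e) (Equiv.Perm.viaEmbeddingHom_injective e)
  have h2 : IsPermutable (∀ i, Equiv.Perm (ZMod (m i) × ZMod (m i))) k :=
    h1.of_injective (Equiv.Perm.sigmaCongrRightHom _) Equiv.Perm.sigmaCongrRightHom_injective
  obtain ⟨σ, hσ, hp⟩ := h2 (fun j i => heis (m i) j)
  have h3 : ∀ i, ((wt k 1 : ℕ) : ZMod (m i)) = ((wt k σ : ℕ) : ZMod (m i)) := by
    intro i
    have h4 := congrArg (fun f => (Pi.evalMonoidHom (fun i => Equiv.Perm (ZMod (m i) × ZMod (m i))) i) f) hp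
    simp only [map_list_prod, List.map_ofFn] at h4
    have h5 := congrArg (fun f : Equiv.Perm (ZMod (m i) × ZMod (m i)) => (f (0, 0)).2) h4
    have e1 := prod_heis (m i) k (fun j => (j : ℕ))
    have e2 := prod_heis (m i) k (fun j => (σ j : ℕ))
    have h6 : (((List.ofFn fun j : Fin k => heis (m i) (j : ℕ)).prod (0, 0)).2 : ZMod (m i)) =
        ((List.ofFn fun j : Fin k => heis (m i) (σ j : ℕ)).prod (0, 0)).2 := h5
    rw [e1, e2] at h6
    simpa [wt] using h6
  have hlt := wt_one_lt hσ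
  have hdvd : (∏ i, m i) ∣ wt k σ - wt k 1 := by
    refine Finset.prod_dvd_of_isRelPrime (fun i _ j _ hij => ?_) (fun i _ => ?_)
    · exact Nat.coprime_iff_isRelPrime.mp (hco hij)
    · exact (Nat.modEq_iff_dvd' hlt.le).1 ((ZMod.natCast_eq_natCast_iff _ _ _).1 (h3 i))
  have hle := Nat.le_of_dvd (by omega) hdvd
  have := wt_lt hk σ
  omega

end Pool.Agent.Lib.MP_c6e9f4_al
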