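import Mathlib

set_option autoImplicit false

open Finset Polynomial Matrix

namespace Pool.Agent.Lib.MP_c6e9f4_al

variable {R : Type*} [CommRing R] {n : Type*} [Fintype n] [DecidableEq n]

theorem derivative_det_col (N : Matrix n n R[X]) :
    derivative N.det = ∑ a, (N.updateCol a (fun i => derivative (N i a))).det := by
  simp only [Matrix.det_apply, derivative_sum]
  rw [Finset.sum_comm]
  refine Finset.sum_congr rfl fun σ _ => ?_
  rw [Units.smul_def, derivative_smul, derivative_prod_finset, Finset.smul_sum]
  refine Finset.sum_congr rfl fun a _ => ?_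
  rw [Units.smul_def]
  congr 1
  rw [← Finset.prod_erase_mul _ _ (Finset.mem_univ a)]
  congr 1
  · refine Finset.prod_congr rfl fun b hb => ?_
    rw [Matrix.updateCol_ne (Finset.ne_of_mem_erase hb)]
  · simp

theorem derivative_det_row (N : Matrix n n R[X]) :
    derivative N.det = ∑ a, (N.updateRow a (fun i => derivative (N a i))).det := by
  rw [← Matrix.det_transpose, derivative_det_col]
  refine Finset.sum_congr rfl fun a _ => ?_
  rw [← Matrix.det_transpose, Matrix.updateCol_transpose]
  rfl

theorem derivative_charpoly (M : Matrix n n R) :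
    derivative M.charpoly = (adjugate (charmatrix M)).trace := by
  rw [Matrix.charpoly, derivative_det_row, Matrix.trace]
  refine Finset.sum_congr rfl fun a _ => ?_
  rw [Matrix.diag_apply, Matrix.adjugate_apply]
  congr 2
  funext i
  by_cases h : i = a
  · subst h; simp [charmatrix_apply_eq]
  · rw [charmatrix_apply_ne _ _ _ (Ne.symm h)]
    simp [h]

/-- The matrix of `k`-th coefficients of the adjugate of the characteristic matrix. -/
noncomputable def adjCoeff (M : Matrix n n R) (k : ℕ) : Matrix n n R :=
  Matrix.of fun i j => (adjugate (charmatrix M) i j).coeff k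

theorem charmatrix_mul (M : Matrix n n R) (P : Matrix n n R[X]) (i j : n) :
    (charmatrix M * P) i j = X * P i j - ∑ l, C (M i l) * P l j := by
  have h : charmatrix M = (X : R[X]) • (1 : Matrix n n R[X]) - M.map C := by
    ext a b
    by_cases hab : a = b
    · subst hab; simp [charmatrix_apply_eq]
    · simp [hab]
  rw [h, Matrix.sub_mul, Matrix.sub_apply, Matrix.smul_mul, Matrix.one_mul, Matrix.smul_apply,
    smul_eq_mul, Matrix.mul_apply]
  rfl

theorem adjCoeff_rec (M : Matrix n n R) (k : ℕ) :
    adjCoeff M k = M * adjCoeff M (k + 1) + M.charpoly.coeff (k + 1) • (1 : Matrix n n R) := by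
  have h := Matrix.mul_adjugate (charmatrix M)
  refine Matrix.ext fun i j => ?_
  have hij : ((charmatrix M * adjugate (charmatrix M)) i j).coeff (k + 1) =
      (((charmatrix M).det • (1 : Matrix n n R[X])) i j).coeff (k + 1) := by rw [h]
  rw [charmatrix_mul, Polynomial.coeff_sub, Polynomial.coeff_X_mul,
    Polynomial.finsetSum_coeff, sub_eq_iff_eq_add] at hij
  simp only [Polynomial.coeff_C_mul] at hij
  simp only [adjCoeff, Matrix.of_apply, Matrix.add_apply, Matrix.mul_apply, Matrix.smul_apply,
    smul_eq_mul]
  rw [hij, add_comm]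
  congr 1
  rw [Matrix.smul_apply, smul_eq_mul, ← Matrix.charpoly.eq_1 M]
  by_cases hab : i = j
  · subst hab; simp
  · simp [hab]

theorem adjCoeff_zero (M : Matrix n n R) :
    M * adjCoeff M 0 + M.charpoly.coeff 0 • (1 : Matrix n n R) = 0 := by
  have h := Matrix.mul_adjugate (charmatrix M)
  refine Matrix.ext fun i j => ?_
  have hij : ((charmatrix M * adjugate (charmatrix M)) i j).coeff 0 =
      (((charmatrix M).det • (1 : Matrix n n R[X])) i j).coeff 0 := by rw [h]
  rw [charmatrix_mul, Polynomial.coeff_sub, Polynomial.coeff_X_mul_zero,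
    Polynomial.finsetSum_coeff, zero_sub] at hij
  simp only [Polynomial.coeff_C_mul] at hij
  simp only [adjCoeff, Matrix.of_apply, Matrix.add_apply, Matrix.mul_apply, Matrix.smul_apply,
    smul_eq_mul, Matrix.zero_apply]
  rw [Matrix.smul_apply, smul_eq_mul, ← Matrix.charpoly.eq_1 M, ] at hij
  have h2 : (M.charpoly * (1 : Matrix n n R[X]) i j).coeff 0 = M.charpoly.coeff 0 *
      (1 : Matrix n n R) i j := by
    by_cases hab : i = j
    · subst hab; simp
    · simp [hab]
  rw [h2] at hij
  rw [← hij]
  ring

theorem adjCoeff_eventually (M : Matrix n n R) : ∃ N, ∀ k, N ≤ k → adjCoeff M k = 0 := by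
  refine ⟨(∑ i, ∑ j, (adjugate (charmatrix M) i j).natDegree) + 1, fun k hk => ?_⟩
  refine Matrix.ext fun i j => ?_
  simp only [adjCoeff, Matrix.of_apply, Matrix.zero_apply]
  apply Polynomial.coeff_eq_zero_of_natDegree_lt
  have h1 : (adjugate (charmatrix M) i j).natDegree ≤
      ∑ j, (adjugate (charmatrix M) i j).natDegree :=
    Finset.single_le_sum (f := fun j => (adjugate (charmatrix M) i j).natDegree)
      (fun _ _ => Nat.zero_le _) (Finset.mem_univ j)
  have h2 : ∑ j, (adjugate (charmatrix M) i j).natDegree ≤
      ∑ i, ∑ j, (adjugate (charmatrix M) i j).natDegree :=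
    Finset.single_le_sum (f := fun i => ∑ j, (adjugate (charmatrix M) i j).natDegree)
      (fun _ _ => Nat.zero_le _) (Finset.mem_univ i)
  omega

theorem adjCoeff_eq_zero [Nontrivial R] (M : Matrix n n R) {k : ℕ} (hk : Fintype.card n ≤ k) :
    adjCoeff M k = 0 := by
  obtain ⟨N, hN⟩ := adjCoeff_eventually M
  by_cases hle : N ≤ k
  · exact hN k hle
  · obtain ⟨l, hl⟩ : ∃ l, k + l = N := ⟨N - k, by omega⟩
    clear hle
    induction l generalizing k with
    | zero => exact hN k (by omega)
    | succ l ih =>
      rw [adjCoeff_rec, ih (k := k + 1) (by omega) (by omega), mul_zero, zero_add,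
        Polynomial.coeff_eq_zero_of_natDegree_lt, zero_smul]
      rw [Matrix.charpoly_natDegree_eq_dim]
      omega

theorem trace_pow_mul_adjCoeff [Nontrivial R] (M : Matrix n n R)
    (htr : ∀ m, 1 ≤ m → m ≤ Fintype.card n → (M ^ m).trace = 0) {k m : ℕ} (hm : 1 ≤ m)
    (hmk : m ≤ k + 1) : (M ^ m * adjCoeff M k).trace = 0 := by
  by_cases hk : Fintype.card n ≤ k
  · rw [adjCoeff_eq_zero M hk, mul_zero, Matrix.trace_zero]
  · obtain ⟨l, hl⟩ : ∃ l, k + l = Fintype.card n := ⟨Fintype.card n - k, by omega⟩
    clear hk
    induction l generalizing k m with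
    | zero => rw [adjCoeff_eq_zero M (by omega), mul_zero, Matrix.trace_zero]
    | succ l ih =>
      rw [adjCoeff_rec, mul_add, ← mul_assoc, ← pow_succ, Matrix.trace_add,
        ih (k := k + 1) (m := m + 1) (by omega) (by omega) (by omega), zero_add, mul_smul_comm,
        mul_one, Matrix.trace_smul, htr m hm (by omega), smul_zero]

/-- If the first `d` power traces of a `d × d` matrix over a commutative `ℚ`-algebra vanish then
its `d`-th power is zero. -/
theorem pow_card_eq_zero_of_trace [Algebra ℚ R] (M : Matrix n n R)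
    (htr : ∀ m, 1 ≤ m → m ≤ Fintype.card n → (M ^ m).trace = 0) : M ^ Fintype.card n = 0 := by
  rcases subsingleton_or_nontrivial R with hR | hR
  · exact Subsingleton.elim _ _
  have hcast : ∀ (a : ℕ) (r : R), a ≠ 0 → (a : R) * r = 0 → r = 0 := by
    intro a r ha h
    have h1 : IsUnit ((a : ℚ)) := IsUnit.mk0 _ (by exact_mod_cast ha)
    have h2 : IsUnit ((a : R)) := by
      have := h1.map (algebraMap ℚ R)
      simpa using this
    exact (h2.mul_right_eq_zero).1 h
  have hcoeff : ∀ j, j < Fintype.card n → M.charpoly.coeff j = 0 := by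
    intro j hj
    rcases Nat.eq_zero_or_pos j with rfl | hjpos
    · have h := congrArg Matrix.trace (adjCoeff_zero M)
      rw [Matrix.trace_add, Matrix.trace_smul, Matrix.trace_one, Matrix.trace_zero] at h
      have h0 := trace_pow_mul_adjCoeff M htr (k := 0) (m := 1) le_rfl le_rfl
      rw [pow_one] at h0
      rw [h0, zero_add, smul_eq_mul, mul_comm] at h
      exact hcast _ _ (by omega) h
    · obtain ⟨k, rfl⟩ : ∃ k, j = k + 1 := ⟨j - 1, by omega⟩
      have h1 : (adjCoeff M k).trace = (Fintype.card n : R) * M.charpoly.coeff (k + 1) := by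
        rw [adjCoeff_rec, Matrix.trace_add, Matrix.trace_smul, Matrix.trace_one]
        have h0 := trace_pow_mul_adjCoeff M htr (k := k + 1) (m := 1) le_rfl (by omega)
        rw [pow_one] at h0
        rw [h0, zero_add, smul_eq_mul, mul_comm]
      have h2 : (adjCoeff M k).trace = M.charpoly.coeff (k + 1) * ((k : R) + 1) := by
        have h3 := congrArg (fun p : R[X] => p.coeff k) (derivative_charpoly M)
        simp only [Polynomial.coeff_derivative] at h3
        rw [h3, Matrix.trace, Matrix.trace, Polynomial.finsetSum_coeff]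
        rfl
      obtain ⟨a, ha⟩ : ∃ a, Fintype.card n = k + 1 + a := ⟨Fintype.card n - (k + 1), by omega⟩
      have h4 : (a : R) * M.charpoly.coeff (k + 1) = 0 := by
        have h5 : (Fintype.card n : R) * M.charpoly.coeff (k + 1) =
            M.charpoly.coeff (k + 1) * ((k : R) + 1) := h1.symm.trans h2
        rw [ha] at h5
        push_cast at h5
        linear_combination h5
      exact hcast a _ (by omega) h4
  have hchar : M.charpoly = X ^ Fintype.card n := by
    ext j
    rcases lt_trichotomy j (Fintype.card n) with h | h | h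
    · rw [hcoeff j h, Polynomial.coeff_X_pow, if_neg h.ne]
    · subst h
      rw [Polynomial.coeff_X_pow, if_pos rfl]
      have := Matrix.charpoly_monic M
      rw [Polynomial.Monic, Polynomial.leadingCoeff, Matrix.charpoly_natDegree_eq_dim] at this
      exact this
    · rw [Polynomial.coeff_eq_zero_of_natDegree_lt (by rwa [Matrix.charpoly_natDegree_eq_dim]),
        Polynomial.coeff_X_pow, if_neg h.ne']
  have := Matrix.aeval_self_charpoly M
  rwa [hchar, map_pow, aeval_X] at this

end Pool.Agent.Lib.MP_c6e9f4_al
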