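import Pool.Agent.Lib.MP_c6e9f4_al.Basic
import Pool.Agent.Lib.MP_c6e9f4_al.AmitsurLevitzki

set_option autoImplicit false

open Finset

namespace Pool.Agent.Lib.MP_c6e9f4_al

/-- If all matrix blocks of the complex group algebra have size at most `b` then `G` is
`k`-permutable for all `k ≥ 2 b`. -/
theorem isPermutable_of_blocks {G : Type*} [Group G] {ι : Type*} (d : ι → ℕ)
    (e : MonoidAlgebra ℂ G →ₐ[ℂ] (∀ i, Matrix (Fin (d i)) (Fin (d i)) ℂ))
    (he : Function.Injective e) {b k : ℕ} (hd : ∀ i, d i ≤ b) (hk : 2 * b ≤ k) :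
    IsPermutable G k := by
  classical
  intro x
  by_contra hcon
  push Not at hcon
  have hz : ∑ σ : Equiv.Perm (Fin k), (Equiv.Perm.sign σ : ℤ) •
      (MonoidAlgebra.of ℂ G ((List.ofFn fun j => x (σ j)).prod)) = 0 := by
    apply he
    rw [map_sum, map_zero]
    funext i
    rw [Finset.sum_apply]
    have h := amitsur_levitzki (fun j => e (MonoidAlgebra.of ℂ G (x j)) i)
      (le_trans (Nat.mul_le_mul_left 2 (hd i)) hk)
    rw [Pi.zero_apply, ← h]
    refine Finset.sum_congr rfl fun σ _ => ?_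
    rw [map_zsmul, Pi.smul_apply]
    congr 1
    have h2 : (e (MonoidAlgebra.of ℂ G ((List.ofFn fun j => x (σ j)).prod))) i =
        ((Pi.evalRingHom (fun i => Matrix (Fin (d i)) (Fin (d i)) ℂ) i).toMonoidHom.comp
          (e.toRingHom.toMonoidHom.comp (MonoidAlgebra.of ℂ G))) ((List.ofFn fun j => x (σ j)).prod) := rfl
    rw [h2, map_list_prod, List.map_ofFn]
    rfl
  have hc : (∑ σ : Equiv.Perm (Fin k), (Equiv.Perm.sign σ : ℤ) •
      (MonoidAlgebra.of ℂ G ((List.ofFn fun j => x (σ j)).prod))).coeff ((List.ofFn x).prod) = 0 := by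
    rw [hz]; rfl
  rw [MonoidAlgebra.coeff_sum, Finsupp.finsetSum_apply] at hc
  rw [Finset.sum_eq_single (1 : Equiv.Perm (Fin k))] at hc
  · simp at hc
  · intro σ _ hσ
    have hne := hcon σ hσ
    simp [Ne.symm hne]
  · intro h; exact absurd (Finset.mem_univ _) h

/-- Every finite group `G` is `k`-permutable for all `k ≥ 2 ⌊√|G|⌋`. -/
theorem isPermutable_of_two_mul_sqrt_le {G : Type*} [Group G] [Finite G] {k : ℕ}
    (hk : 2 * Nat.sqrt (Nat.card G) ≤ k) : IsPermutable G k := by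
  classical
  have := Fintype.ofFinite G
  obtain ⟨n, d, hd, ⟨e⟩⟩ := IsSemisimpleRing.exists_algEquiv_pi_matrix_of_isAlgClosed ℂ
    (MonoidAlgebra ℂ G)
  refine isPermutable_of_blocks d e.toAlgHom e.injective (b := Nat.sqrt (Nat.card G)) ?_ hk
  intro i
  rw [Nat.le_sqrt]
  have h1 : Module.finrank ℂ (MonoidAlgebra ℂ G) = Nat.card G := by
    rw [Nat.card_eq_fintype_card]
    rw [← Module.finrank_finsupp_self (R := ℂ) (ι := G)]
    exact (LinearEquiv.finrank_eq
      { MonoidAlgebra.coeffAddEquiv (R := ℂ) (M := G) with map_smul' := fun _ _ => rfl })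
  have h2 := e.toLinearEquiv.finrank_eq
  rw [h1, Module.finrank_pi_fintype] at h2
  rw [h2]
  have h3 : Module.finrank ℂ (Matrix (Fin (d i)) (Fin (d i)) ℂ) = d i * d i := by
    rw [Module.finrank_matrix]; simp
  rw [← h3]
  exact Finset.single_le_sum (f := fun i => Module.finrank ℂ (Matrix (Fin (d i)) (Fin (d i)) ℂ))
    (fun _ _ => Nat.zero_le _) (Finset.mem_univ i)

theorem permIndex_le_two_mul_sqrt (G : Type*) [Group G] [Finite G] :
    permIndex G ≤ 2 * Nat.sqrt (Nat.card G) := by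
  refine permIndex_le ?_ (isPermutable_of_two_mul_sqrt_le le_rfl)
  have : 0 < Nat.sqrt (Nat.card G) := Nat.sqrt_pos.2 Nat.card_pos
  omega

end Pool.Agent.Lib.MP_c6e9f4_al
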