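import Pool.Agent.Lib.MP_c6e9f4_al.Basic

/-!
# Lower bound for the index of permutability: wreath products with the symmetric group

`m` registers, each with values modulo several pairwise coprime moduli, are permuted by the symmetric
group of degree `m`.  The `t`-th element moves the state `S t` of the registers to `S (t + 1)`, where the
states `S 0 = 1, S 1, ...` are different, and adds to the register in place `c` the number `(S t)⁻¹ c`.
The strict rearrangement inequality forces every element of a reordering with the same product to be used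
in its own state `S t`.
-/

set_option autoImplicit false

open Finset

namespace Pool.Agent.Lib.MP_c6e9f4_al

/-- The permutation `(v, c) ↦ (v + β c, h c)`. -/
def wr (p m : ℕ) (β : Fin m → ZMod p) (h : Equiv.Perm (Fin m)) : Equiv.Perm (ZMod p × Fin m) where
  toFun w := (w.1 + β w.2, h w.2)
  invFun w := (w.1 - β (h.symm w.2), h.symm w.2)
  left_inv w := by ext <;> simp
  right_inv w := by ext <;> simp

theorem wr_apply (p m : ℕ) (β : Fin m → ZMod p) (h : Equiv.Perm (Fin m)) (v : ZMod p) (c : Fin m) :
    wr p m β h (v, c) = (v + β c, h c) := rfl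

/-- The weight `∑ c * R c`. -/
def Wt {m : ℕ} (R : Equiv.Perm (Fin m)) : ℕ := ∑ c : Fin m, (c : ℕ) * (R c : ℕ)

theorem Wt_lt {m : ℕ} {R : Equiv.Perm (Fin m)} (hR : R ≠ 1) : Wt R < Wt (1 : Equiv.Perm (Fin m)) := by
  have hmv : Monovary (fun c : Fin m => ((c : ℕ) : ℤ)) (fun c : Fin m => ((c : ℕ) : ℤ)) := by
    intro i j hij
    exact hij.le
  have h := (hmv.sum_mul_comp_perm_lt_sum_mul_iff (σ := R)).2 ?_
  · unfold Wt
    have h' : (∑ c : Fin m, ((c : ℕ) : ℤ) * ((R c : ℕ) : ℤ)) <
        ∑ c : Fin m, ((c : ℕ) : ℤ) * (((1 : Equiv.Perm (Fin m)) c : ℕ) : ℤ) := by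
      simpa using h
    exact_mod_cast h'
  · intro hA
    apply hR
    have hmono : StrictMono R := by
      intro i j hij
      by_contra hcon
      have hlt : R j < R i := by
        rcases lt_trichotomy (R i) (R j) with h1 | h1 | h1
        · exact absurd h1 hcon
        · exact absurd (R.injective h1) hij.ne
        · exact h1
      have h2 := @hA j i (by
        simp only [Function.comp_apply]
        exact_mod_cast hlt)
      simp only at h2
      have : (j : ℕ) ≤ i := by exact_mod_cast h2
      exact absurd hij (not_lt.mpr this)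
    refine Equiv.ext fun i => ?_
    have h2 : (hmono.orderIsoOfSurjective R R.surjective) = OrderIso.refl _ := Subsingleton.elim _ _
    have h3 := congrArg (fun e : Fin m ≃o Fin m => e i) h2
    simpa using h3

theorem Wt_le {m : ℕ} (R : Equiv.Perm (Fin m)) : Wt R ≤ Wt (1 : Equiv.Perm (Fin m)) := by
  by_cases h : R = 1
  · rw [h]
  · exact (Wt_lt h).le

theorem Wt_one_lt {m : ℕ} (hm : 0 < m) : Wt (1 : Equiv.Perm (Fin m)) < m ^ 3 := by
  unfold Wt
  calc ∑ c : Fin m, (c : ℕ) * ((1 : Equiv.Perm (Fin m)) c : ℕ) ≤ ∑ _c : Fin m, (m - 1) * (m - 1) := by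
        apply Finset.sum_le_sum
        intro c _
        have h1 := c.isLt
        have h2 := ((1 : Equiv.Perm (Fin m)) c).isLt
        exact Nat.mul_le_mul (by omega) (by omega)
    _ = m * ((m - 1) * (m - 1)) := by simp
    _ < m ^ 3 := by
        obtain ⟨m, rfl⟩ : ∃ l, m = l + 1 := ⟨m - 1, by omega⟩
        simp only [Nat.add_sub_cancel]
        nlinarith [Nat.zero_le m, Nat.zero_le (m * m)]

section

variable {m : ℕ} (S : ℕ → Equiv.Perm (Fin m))

/-- the step from the state `S t` to the state `S (t + 1)` -/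
def hst (t : ℕ) : Equiv.Perm (Fin m) := S (t + 1) * (S t)⁻¹

/-- the state reached by a list of elements (the last one acts first) -/
def stt (L : List ℕ) : Equiv.Perm (Fin m) := (L.map (hst S)).prod

/-- the number added to the register `c` by a list of elements -/
def VV : List ℕ → Fin m → ℕ
  | [], _ => 0
  | t :: L, c => (((S t)⁻¹ * stt S L) c : ℕ) + VV L c

/-- the total weight of a list of elements -/
def EE : List ℕ → ℕ
  | [] => 0
  | t :: L => Wt ((S t)⁻¹ * stt S L) + EE L

/-- every element is used in its own state -/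
def GoodL : List ℕ → Prop
  | [] => True
  | t :: L => stt S L = S t ∧ GoodL L

theorem stt_cons (t : ℕ) (L : List ℕ) : stt S (t :: L) = hst S t * stt S L := by
  unfold stt
  rw [List.map_cons, List.prod_cons]

theorem prod_wr (p : ℕ) (L : List ℕ) (v : ZMod p) (c : Fin m) :
    (L.map fun t => wr p m (fun c => (((S t)⁻¹ c : Fin m) : ℕ)) (hst S t)).prod (v, c) =
      (v + ((VV S L c : ℕ) : ZMod p), stt S L c) := by
  induction L with
  | nil => simp [VV, stt]
  | cons t L ih =>
    rw [List.map_cons, List.prod_cons, Equiv.Perm.mul_apply, ih, wr_apply, stt_cons]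
    simp only [VV, Equiv.Perm.mul_apply, Nat.cast_add]
    ext
    · simp only
      ring
    · rfl

theorem EE_eq (L : List ℕ) : EE S L = ∑ c : Fin m, (c : ℕ) * VV S L c := by
  induction L with
  | nil => simp [EE, VV]
  | cons t L ih =>
    simp only [EE, VV, ih, Wt, mul_add, Finset.sum_add_distrib]

theorem EE_le (L : List ℕ) : EE S L ≤ L.length * Wt (1 : Equiv.Perm (Fin m)) := by
  induction L with
  | nil => simp [EE]
  | cons t L ih =>
    have := Wt_le ((S t)⁻¹ * stt S L)
    simp only [EE, List.length_cons, add_mul, one_mul]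
    omega

theorem good_of_EE (L : List ℕ) (h : EE S L = L.length * Wt (1 : Equiv.Perm (Fin m))) : GoodL S L := by
  induction L with
  | nil => trivial
  | cons t L ih =>
    have h1 := Wt_le ((S t)⁻¹ * stt S L)
    have h2 := EE_le S L
    simp only [EE, List.length_cons, add_mul, one_mul] at h
    have h3 : Wt ((S t)⁻¹ * stt S L) = Wt (1 : Equiv.Perm (Fin m)) := by omega
    refine ⟨?_, ih (by omega)⟩
    by_contra hne
    have h4 : (S t)⁻¹ * stt S L ≠ 1 := by
      intro h5
      exact hne (inv_mul_eq_one.1 h5).symm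
    exact absurd (Wt_lt h4) (by omega)

theorem EE_of_good (L : List ℕ) (h : GoodL S L) : EE S L = L.length * Wt (1 : Equiv.Perm (Fin m)) := by
  induction L with
  | nil => simp [EE]
  | cons t L ih =>
    simp only [EE, List.length_cons, add_mul, one_mul]
    rw [ih h.2, h.1, inv_mul_cancel, add_comm]

theorem stt_range (h0 : S 0 = 1) (l : ℕ) : stt S (List.range l).reverse = S l := by
  induction l with
  | zero => simp [stt, h0]
  | succ l ih =>
    rw [List.range_succ, List.reverse_append, List.reverse_singleton, List.singleton_append, stt_cons, ih]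
    simp [hst]

theorem good_range (h0 : S 0 = 1) (l : ℕ) : GoodL S (List.range l).reverse := by
  induction l with
  | zero => trivial
  | succ l ih =>
    rw [List.range_succ, List.reverse_append, List.reverse_singleton, List.singleton_append]
    exact ⟨stt_range S h0 l, ih⟩

theorem eq_range_of_good (h0 : S 0 = 1) (k : ℕ) (hinj : ∀ i < k, ∀ j < k, S i = S j → i = j) (L : List ℕ)
    (hL : GoodL S L) (hlt : ∀ t ∈ L, t < k) (hlen : L.length ≤ k) : L = (List.range L.length).reverse := by
  induction L with
  | nil => simp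
  | cons t L ih =>
    have h1 := ih hL.2 (fun s hs => hlt s (List.mem_cons_of_mem _ hs))
      (by simp only [List.length_cons] at hlen; omega)
    have h2 : S t = S L.length := by
      rw [← hL.1]
      conv_lhs => rw [h1]
      exact stt_range S h0 _
    have h3 : t = L.length := hinj t (hlt t (List.mem_cons_self)) _ (by
      simp only [List.length_cons] at hlen; omega) h2
    rw [List.length_cons, List.range_succ, List.reverse_append, List.reverse_singleton,
      List.singleton_append, ← h1, h3]

end

/-- different states `S 0 = 1, S 1, ..., S (k - 1)` for `k ≤ m!` -/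
theorem exists_states (m k : ℕ) (hk : k ≤ m.factorial) :
    ∃ S : ℕ → Equiv.Perm (Fin m), S 0 = 1 ∧ ∀ i < k, ∀ j < k, S i = S j → i = j := by
  classical
  have hcard : Fintype.card (Equiv.Perm (Fin m)) = m.factorial := by
    rw [Fintype.card_perm, Fintype.card_fin]
  obtain ⟨e⟩ : Nonempty (Fin m.factorial ≃ Equiv.Perm (Fin m)) := by
    refine ⟨(Fintype.equivFinOfCardEq hcard).symm⟩
  let E : ℕ → Equiv.Perm (Fin m) := fun i => if h : i < m.factorial then e ⟨i, h⟩ else 1
  have hE : ∀ i < k, ∀ j < k, E i = E j → i = j := by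
    intro i hi j hj h
    have h1 : i < m.factorial := lt_of_lt_of_le hi hk
    have h2 : j < m.factorial := lt_of_lt_of_le hj hk
    simp only [E, dif_pos h1, dif_pos h2] at h
    have := e.injective h
    exact congrArg Fin.val this
  refine ⟨fun i => E i * (E 0)⁻¹, by simp, fun i hi j hj h => hE i hi j hj (mul_right_cancel h)⟩

/-- If `q i` are pairwise coprime moduli with `m ∑ q i ≤ n`, `k ≤ m!` and `k m³ ≤ ∏ q i`, then the
symmetric group of degree `n` is not `k`-permutable. -/
theorem not_isPermutable_wr {ι : Type*} [Fintype ι] [DecidableEq ι] (q : ι → ℕ)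
    (hpos : ∀ i, 0 < q i) (hco : Pairwise (Function.onFun Nat.Coprime q)) {n k m : ℕ} (hk : 0 < k)
    (hm : 0 < m) (hkm : k ≤ m.factorial) (hn : m * ∑ i, q i ≤ n) (hN : k * m ^ 3 ≤ ∏ i, q i) :
    ¬ IsPermutable (Equiv.Perm (Fin n)) k := by
  intro hP
  have : ∀ i, NeZero (q i) := fun i => ⟨(hpos i).ne'⟩
  obtain ⟨S, hS0, hinj⟩ := exists_states m k hkm
  -- the product group embeds into `Perm (Fin n)`
  have hcard : Fintype.card (Σ i, ZMod (q i) × Fin m) ≤ Fintype.card (Fin n) := by
    rw [Fintype.card_sigma, Fintype.card_fin]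
    refine le_trans (le_of_eq ?_) hn
    rw [Finset.mul_sum]
    refine Finset.sum_congr rfl fun i _ => ?_
    rw [Fintype.card_prod, ZMod.card, Fintype.card_fin, mul_comm]
  obtain ⟨e⟩ := Function.Embedding.nonempty_of_card_le hcard
  have h1 : IsPermutable (Equiv.Perm (Σ i, ZMod (q i) × Fin m)) k :=
    hP.of_injective (Equiv.Perm.viaEmbeddingHom e) (Equiv.Perm.viaEmbeddingHom_injective e)
  have h2 : IsPermutable (∀ i, Equiv.Perm (ZMod (q i) × Fin m)) k :=
    h1.of_injective (Equiv.Perm.sigmaCongrRightHom _) Equiv.Perm.sigmaCongrRightHom_injective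
  let y : ∀ i, ℕ → Equiv.Perm (ZMod (q i) × Fin m) := fun i t =>
    wr (q i) m (fun c => (((S t)⁻¹ c : Fin m) : ℕ)) (hst S t)
  obtain ⟨σ, hσ, hp⟩ := h2 (fun j i => y i (k - 1 - j))
  let L0 : List ℕ := List.ofFn fun j : Fin k => k - 1 - (j : ℕ)
  let L1 : List ℕ := List.ofFn fun j : Fin k => k - 1 - (σ j : ℕ)
  have hL0 : L0 = (List.range k).reverse := by
    apply List.ext_getElem
    · simp [L0]
    · intro i h1 h2
      simp [L0]
  have hlen1 : L1.length = k := by simp [L1]
  have hlt1 : ∀ t ∈ L1, t < k := by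
    intro t ht
    simp only [L1, List.mem_ofFn] at ht
    obtain ⟨j, rfl⟩ := ht
    omega
  have h3 : ∀ i, ∀ c : Fin m, ((VV S L0 c : ℕ) : ZMod (q i)) = ((VV S L1 c : ℕ) : ZMod (q i)) := by
    intro i c
    have h4 := congrArg (fun f => (Pi.evalMonoidHom (fun i => Equiv.Perm (ZMod (q i) × Fin m)) i) f) hp
    simp only [map_list_prod, List.map_ofFn] at h4
    have e0 : (List.ofFn fun j : Fin k => y i (k - 1 - (j : ℕ))) = L0.map (y i) := by
      rw [List.map_ofFn]; rfl
    have e1 : (List.ofFn fun j : Fin k => y i (k - 1 - (σ j : ℕ))) = L1.map (y i) := by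
      rw [List.map_ofFn]; rfl
    have h5 : (L0.map (y i)).prod = (L1.map (y i)).prod := by
      rw [← e0, ← e1]
      exact h4
    have h6 := congrArg (fun f : Equiv.Perm (ZMod (q i) × Fin m) => (f (0, c)).1) h5
    have f0 := prod_wr S (q i) L0 0 c
    have f1 := prod_wr S (q i) L1 0 c
    have h7 : ((L0.map (y i)).prod (0, c)).1 = ((L1.map (y i)).prod (0, c)).1 := h6
    have g0 : (L0.map (y i)).prod (0, c) = (0 + ((VV S L0 c : ℕ) : ZMod (q i)), stt S L0 c) := f0
    have g1 : (L1.map (y i)).prod (0, c) = (0 + ((VV S L1 c : ℕ) : ZMod (q i)), stt S L1 c) := f1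
    rw [g0, g1] at h7
    simpa using h7
  have h8 : ∀ i, EE S L0 ≡ EE S L1 [MOD q i] := by
    intro i
    rw [EE_eq, EE_eq]
    apply (ZMod.natCast_eq_natCast_iff _ _ _).1
    push_cast
    refine Finset.sum_congr rfl fun c _ => ?_
    rw [h3 i c]
  have hE0 : EE S L0 = k * Wt (1 : Equiv.Perm (Fin m)) := by
    have := EE_of_good S L0 (by rw [hL0]; exact good_range S hS0 k)
    rw [this]
    simp [L0]
  have hE1 : EE S L1 ≤ k * Wt (1 : Equiv.Perm (Fin m)) := by
    have := EE_le S L1
    rwa [hlen1] at this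
  have hrange : k * Wt (1 : Equiv.Perm (Fin m)) < ∏ i, q i := by
    refine lt_of_lt_of_le ?_ hN
    exact Nat.mul_lt_mul_of_pos_left (Wt_one_lt hm) hk
  have hdvd : (∏ i, q i) ∣ EE S L0 - EE S L1 := by
    refine Finset.prod_dvd_of_isRelPrime (fun i _ j _ hij => ?_) (fun i _ => ?_)
    · exact Nat.coprime_iff_isRelPrime.mp (hco hij)
    · exact (Nat.modEq_iff_dvd' (by omega)).1 (h8 i).symm
  have hEq : EE S L1 = k * Wt (1 : Equiv.Perm (Fin m)) := by
    by_contra hne
    have hle := Nat.le_of_dvd (by omega) hdvd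
    omega
  have hgood : GoodL S L1 := good_of_EE S L1 (by rw [hlen1]; exact hEq)
  have hL1 : L1 = (List.range k).reverse := by
    have := eq_range_of_good S hS0 k hinj L1 hgood hlt1 (by rw [hlen1])
    rwa [hlen1] at this
  have hfn : (fun j : Fin k => k - 1 - (j : ℕ)) = fun j : Fin k => k - 1 - (σ j : ℕ) := by
    apply List.ofFn_injective
    exact hL0.trans hL1.symm
  apply hσ
  refine Equiv.ext fun j => ?_
  have h9 := congrFun hfn j
  have h10 := j.isLt
  have h11 := (σ j).isLt
  apply Fin.ext
  simp only [Equiv.Perm.coe_one, id_eq]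
  omega

end Pool.Agent.Lib.MP_c6e9f4_al
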